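import Mathlib
import Pool.Agent.H138Z.Frust

set_option autoImplicit false

namespace Pool.Agent.Results.MP_39f9da_an.AFinGenCounter

/-- The left shift action on configurations: `(g x)(h) = x(g⁻¹ h)`. -/
def shift {G A : Type} [Group G] (g : G) (x : G → A) : G → A := fun h => x (g⁻¹ * h)

/-- `X` is a subshift of finite type: it is cut out by a set `P` of patterns on a finite window
`D`, that is `X = {x : (g⁻¹ x)|_D ∈ P for all g}`. -/
def IsSFT {G A : Type} [Group G] (X : Set (G → A)) : Prop :=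
  ∃ (D : Finset G) (P : Set (D → A)), X = {x | ∀ g : G, (fun d : D => shift g⁻¹ x d.1) ∈ P}

/-- `X` is strongly irreducible. -/
def IsStronglyIrreducible {G A : Type} [Group G] (X : Set (G → A)) : Prop :=
  ∃ Δ : Finset G, ∀ Ω₁ Ω₂ : Finset G, (∀ w ∈ Ω₁, ∀ d ∈ Δ, w * d ∉ Ω₂) →
    ∀ x₁ ∈ X, ∀ x₂ ∈ X, ∃ x ∈ X, (∀ w ∈ Ω₁, x w = x₁ w) ∧ (∀ w ∈ Ω₂, x w = x₂ w)

/-- `x` is periodic: its orbit under the shift action is finite. -/
def IsPeriodic {G A : Type} [Group G] (x : G → A) : Prop :=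
  (Set.range fun g : G => shift g x).Finite

/-- There are a finitely generated residually finite group and a nonempty strongly irreducible
subshift of finite type over it which contains no periodic configuration. -/
theorem result : ∃ (G : Type) (_ : Group G), Group.FG G ∧ Group.ResiduallyFinite G ∧
    ∃ (A : Type) (_ : Fintype A) (X : Set (G → A)),
      IsSFT X ∧ IsStronglyIrreducible X ∧ X.Nonempty ∧ ∀ x ∈ X, ¬ IsPeriodic x := by
  classical
  obtain ⟨G, _, hfg, hrf, X, ⟨S, P, hX⟩, ⟨Δ, hΔ⟩, ⟨x, hx⟩, hno⟩ := Pool.Agent.H138Z.Frust.main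
  refine ⟨G, inferInstance, hfg, ?_, ZMod 2 × ZMod 2, inferInstance,
    {y | (fun g => y g⁻¹) ∈ X}, ?_, ?_, ⟨fun g => x g⁻¹, by simpa using hx⟩, ?_⟩
  · rw [Group.residuallyFinite_iff_forall_finiteIndex]
    intro g hg
    by_contra h
    obtain ⟨H, hH, hgH⟩ := hrf g h
    exact hgH (hg H)
  · refine ⟨S.image (·⁻¹), {p | (fun s : S => p ⟨s.1⁻¹, Finset.mem_image_of_mem _ s.2⟩) ∈ P}, ?_⟩
    ext y
    simp only [hX, Set.mem_ofPred_eq, shift, inv_inv, mul_inv_rev]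
    exact ⟨fun h g => by simpa using h g⁻¹, fun h g => h g⁻¹⟩
  · refine ⟨Δ.image (·⁻¹), fun Ω₁ Ω₂ hΩ x₁ h₁ x₂ h₂ => ?_⟩
    obtain ⟨z, hz, hz1, hz2⟩ := hΔ {g | g⁻¹ ∈ Ω₁} {g | g⁻¹ ∈ Ω₂} (fun d hd w hw h => by
      refine hΩ w⁻¹ hw d⁻¹ (Finset.mem_image_of_mem _ hd) ?_
      simpa using h) _ h₁ _ h₂
    refine ⟨fun g => z g⁻¹, by simpa using hz, fun w hw => ?_, fun w hw => ?_⟩
    · simpa using hz1 w⁻¹ (by simpa using hw)
    · simpa using hz2 w⁻¹ (by simpa using hw)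
  · intro y hy hfin
    refine hno _ hy ((hfin.image fun z g => z g⁻¹).subset ?_)
    rintro _ ⟨g, rfl⟩
    exact ⟨shift g y, ⟨g, rfl⟩, by funext h; simp [shift]⟩

end Pool.Agent.Results.MP_39f9da_an.AFinGenCounter
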